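import Mathlib
import Pool.Agent.Q28.LowerCentral

/-!
If the quotients of a group `Γ` by the terms of its lower central series are isomorphic (for each
term separately, by any isomorphisms) to those of a free group `F` of any rank, finite or infinite,
then some homomorphism `F → Γ` induces isomorphisms on all these quotients. So (P1) implies (P2).
-/

namespace Pool.Agent.Results.MP_b9ac25_al.FreeTypeInduced

universe u v

/-- `C G j` is the `j`-th term of the lower central series for `j ≥ 1`: `C G 1 = G` and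
`C G (j + 1) = [C G j, G]` (Mathlib numbers this series from `0`). -/
abbrev C (G : Type*) [Group G] (j : ℕ) : Subgroup G := (⊤ : Subgroup G).lowerCentralSeries (j - 1)

/-- A homomorphism maps `C G j` into `C H j`. -/
theorem C_le_comap {G H : Type*} [Group G] [Group H] (φ : G →* H) (j : ℕ) :
    C G j ≤ (C H j).comap φ := fun _ hg => Q28.LowerCentral.map_mem φ hg

/-- The homomorphism `G / C^j G → H / C^j H` induced by `φ : G → H`. -/
def induced {G H : Type*} [Group G] [Group H] (φ : G →* H) (j : ℕ) : G ⧸ C G j →* H ⧸ C H j :=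
  QuotientGroup.map (C G j) (C H j) φ (C_le_comap φ j)

/-- (P1): there is a free group `F` with `Γ / C^j Γ ≅ F / C^j F` for every `j ≥ 1`, the
isomorphisms for different `j` being unrelated. -/
def P1 (Γ : Type u) [Group Γ] : Prop :=
  ∃ X : Type v, ∀ j : ℕ, 1 ≤ j → Nonempty (Γ ⧸ C Γ j ≃* FreeGroup X ⧸ C (FreeGroup X) j)

/-- (P2): there are a free group `F` and a homomorphism `φ : F → Γ` which induces an isomorphism
`F / C^j F → Γ / C^j Γ` for every `j ≥ 1`. -/
def P2 (Γ : Type u) [Group Γ] : Prop :=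
  ∃ (X : Type v) (φ : FreeGroup X →* Γ), ∀ j : ℕ, 1 ≤ j → Function.Bijective (induced φ j)

/-- (P1) with the free group on `X` gives (P2) with the same free group. -/
theorem same_free_group {Γ : Type u} [Group Γ] (X : Type v)
    (h : ∀ j : ℕ, 1 ≤ j → Nonempty (Γ ⧸ C Γ j ≃* FreeGroup X ⧸ C (FreeGroup X) j)) :
    ∃ φ : FreeGroup X →* Γ, ∀ j : ℕ, 1 ≤ j → Function.Bijective (induced φ j) := by
  obtain ⟨φ, hφ⟩ := Q28.LowerCentral.exists_hom (Γ := Γ) (X := X) (fun n => by
    have := h (n + 1) (by omega)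
    exact this)
  refine ⟨φ, fun j _ => ⟨?_, ?_⟩⟩
  · rw [injective_iff_map_eq_one]
    intro x hx
    obtain ⟨g, rfl⟩ := QuotientGroup.mk_surjective x
    have h1 : (QuotientGroup.mk (φ g) : Γ ⧸ C Γ j) = 1 := hx
    exact (QuotientGroup.eq_one_iff _).2 ((hφ (j - 1)).1 g ((QuotientGroup.eq_one_iff _).1 h1))
  · intro y
    obtain ⟨h', rfl⟩ := QuotientGroup.mk_surjective y
    obtain ⟨g, hg⟩ := (hφ (j - 1)).2 h'
    exact ⟨QuotientGroup.mk g, QuotientGroup.eq.2 hg⟩

/-- Every group with property (P1) has property (P2); more precisely, every free group `F` that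
witnesses (P1) for `Γ` also witnesses (P2). -/
theorem result (Γ : Type u) [Group Γ] :
    (P1.{u, v} Γ → P2.{u, v} Γ) ∧
    ∀ X : Type v, (∀ j : ℕ, 1 ≤ j → Nonempty (Γ ⧸ C Γ j ≃* FreeGroup X ⧸ C (FreeGroup X) j)) →
      ∃ φ : FreeGroup X →* Γ, ∀ j : ℕ, 1 ≤ j → Function.Bijective (induced φ j) :=
  ⟨fun ⟨X, hX⟩ => ⟨X, same_free_group X hX⟩, fun X h => same_free_group X h⟩

end Pool.Agent.Results.MP_b9ac25_al.FreeTypeInduced
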